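import Pool.Agent.Y377.ST.Stm

/-!
# Project ST (helper377): uniruledness from a nonconstant generic point over `RatFunc M`
-/

set_option autoImplicit false

namespace Pool.Agent.Y837.ST

open Pool.Agent.H533R3.SL Pool.Agent.Y377.ST
open scoped Polynomial

/-- scaling of the variables of a form -/
lemma aeval_scale {k A σ : Type} [Field k] [CommRing A] [Algebra k A] (c : A) (q : σ → A) {e : ℕ}
    {F : MvPolynomial σ k} (hF : F.IsHomogeneous e) :
    MvPolynomial.aeval (fun i => c * q i) F = c ^ e * MvPolynomial.aeval q F := by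
  classical
  rw [MvPolynomial.aeval_def, MvPolynomial.aeval_def, MvPolynomial.eval₂_eq, MvPolynomial.eval₂_eq,
    Finset.mul_sum]
  refine Finset.sum_congr rfl fun m hm => ?_
  have h1 : ∑ i ∈ m.support, m i = e := by
    have h2 := hF (MvPolynomial.mem_support_iff.1 hm)
    rw [Finsupp.weight_apply, Finsupp.sum] at h2
    simpa using h2
  simp only [mul_pow]
  rw [Finset.prod_mul_distrib, Finset.prod_pow_eq_pow_sum, h1]
  ring

variable {k M : Type} [Field k] [Field M] [Algebra k M]

/-- shifted polynomials over `RatFunc M` -/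
noncomputable def Sh : M[X] →+* (RatFunc M)[X] :=
  (Polynomial.compRingHom (Polynomial.X + Polynomial.C (RatFunc.X - 1))).comp
    (Polynomial.mapRingHom (algebraMap M (RatFunc M)))

lemma Sh_apply (g : M[X]) : Sh g = (g.map (algebraMap M (RatFunc M))).comp
    (Polynomial.X + Polynomial.C (RatFunc.X - 1)) := rfl

lemma Sh_eval (g : M[X]) (t : RatFunc M) :
    (Sh g).eval t = Polynomial.aeval (t + (RatFunc.X - 1)) g := by
  rw [Sh_apply, Polynomial.eval_comp, Polynomial.eval_add, Polynomial.eval_X, Polynomial.eval_C,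
    Polynomial.eval_map, Polynomial.aeval_def]

lemma Sh_one (g : M[X]) : (Sh g).eval 1 = algebraMap M[X] (RatFunc M) g := by
  rw [Sh_eval, add_sub_cancel, RatFunc.aeval_X_left_eq_algebraMap]

lemma Sh_const (g : M[X]) (c : M) :
    (Sh g).eval (1 - RatFunc.X + algebraMap M (RatFunc M) c) =
      algebraMap M (RatFunc M) (g.eval c) := by
  rw [Sh_eval]
  have h1 : 1 - RatFunc.X + algebraMap M (RatFunc M) c + (RatFunc.X - 1) =
      algebraMap M (RatFunc M) c := by ring
  rw [h1, Polynomial.aeval_algebraMap_apply, Polynomial.coe_aeval_eq_eval]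

lemma Sh_alg : (Sh (M := M)).comp (algebraMap k M[X]) = algebraMap k (RatFunc M)[X] := by
  ext1 r
  rw [RingHom.comp_apply, Sh_apply, Polynomial.algebraMap_apply, Polynomial.map_C,
    Polynomial.C_comp, Polynomial.algebraMap_apply]
  congr 1

theorem t_UNI : S_UNI := by
  classical
  intro k _ n FF hFF M _ _ _ q hq hG ⟨i, l, hl, hc⟩
  obtain ⟨⟨d, hd⟩, hda⟩ := IsLocalization.exist_integer_multiples_of_finite
    (nonZeroDivisors M[X]) q
  have hd0 : algebraMap M[X] (RatFunc M) d ≠ 0 := by
    rw [Ne, FaithfulSMul.algebraMap_eq_zero_iff]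
    exact nonZeroDivisors.ne_zero hd
  choose a ha using hda
  have ha' : ∀ j, algebraMap M[X] (RatFunc M) (a j) = algebraMap M[X] (RatFunc M) d * q j := by
    intro j
    rw [ha j]
    exact Algebra.smul_def d (q j)
  have hform : ∀ (e : ℕ) (F : MvPolynomial (Fin (n + 1)) k), F.IsHomogeneous e →
      MvPolynomial.aeval (fun j => algebraMap M[X] (RatFunc M) (a j)) F =
        (algebraMap M[X] (RatFunc M) d) ^ e * MvPolynomial.aeval q F := by
    intro e F hF
    have h1 : (fun j => algebraMap M[X] (RatFunc M) (a j)) =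
        fun j => algebraMap M[X] (RatFunc M) d * q j := funext ha'
    rw [h1, aeval_scale _ _ hF]
  refine ⟨RatFunc M, inferInstance, inferInstance, fun j => Sh (a j), ?_, ?_, ?_⟩
  · have h1 : Ideal.span FF ≤ RingHom.ker (MvPolynomial.aeval (R := k) (fun j => Sh (a j))) := by
      rw [Ideal.span_le]
      intro F hF
      obtain ⟨e, he⟩ := hFF F hF
      have h2 : MvPolynomial.aeval a F = 0 := by
        have h3 : algebraMap M[X] (RatFunc M) (MvPolynomial.aeval a F) = 0 := by
          rw [← MvPolynomial.aeval_algebraMap_apply]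
          have h4 := hform e F he
          rw [hq F hF e he, mul_zero] at h4
          exact h4
        exact (FaithfulSMul.algebraMap_eq_zero_iff _ _).1 h3
      show MvPolynomial.aeval (fun j => Sh (a j)) F = 0
      have h5 : Sh (MvPolynomial.aeval a F) = MvPolynomial.aeval (fun j => Sh (a j)) F := by
        rw [MvPolynomial.aeval_def, MvPolynomial.eval₂_comp_left, Sh_alg]
        rfl
      rw [← h5, h2, map_zero]
    intro F hF
    exact h1 hF
  · intro G hGh hGI
    obtain ⟨e, he⟩ := hGh
    have h1 : (fun j => (Sh (a j)).eval 1) = fun j => algebraMap M[X] (RatFunc M) (a j) :=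
      funext fun j => Sh_one (a j)
    show MvPolynomial.aeval (fun j => (Sh (a j)).eval 1) G ≠ 0
    rw [h1, hform e G he]
    exact mul_ne_zero (pow_ne_zero _ hd0) (hG G ⟨e, he⟩ hGI)
  · refine ⟨i, l, fun heq => ?_⟩
    have heq' : Sh (a i) * Polynomial.C ((Sh (a l)).eval 1) =
        Sh (a l) * Polynomial.C ((Sh (a i)).eval 1) := heq
    have hal : a l ≠ 0 := by
      intro h
      have h1 := ha' l
      rw [h, map_zero] at h1
      exact mul_ne_zero hd0 hl h1.symm
    obtain ⟨c, hcl⟩ : ∃ c : M, (a l).eval c ≠ 0 := by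
      by_contra hcon
      push Not at hcon
      exact hal (Polynomial.funext fun r => by rw [hcon r, Polynomial.eval_zero])
    have h1 := congrArg (Polynomial.eval (1 - RatFunc.X + algebraMap M (RatFunc M) c)) heq'
    rw [Polynomial.eval_mul, Polynomial.eval_mul, Polynomial.eval_C, Polynomial.eval_C, Sh_const,
      Sh_const, Sh_one, Sh_one, ha', ha'] at h1
    apply hc ((a i).eval c / (a l).eval c)
    have hcl' : algebraMap M (RatFunc M) ((a l).eval c) ≠ 0 := by
      rw [Ne, map_eq_zero]
      exact hcl
    rw [map_div₀, div_eq_div_iff hl hcl']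
    apply mul_left_cancel₀ hd0
    linear_combination -h1

end Pool.Agent.Y837.ST
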